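import Pool.Agent.V5helper96.PJ.Main

/-!
# Projective involutions on tangent lines: leaves moved by a linear flow

`p` is a smooth periodic parametrisation of a closed curve `γ` with positive curvature around the
origin (`curved`, `inside`), and `M` is any linear map of the plane.  `f` is a smooth function on
a neighbourhood `U` of `γ` which vanishes on `γ` and satisfies `df_y(M y) = 1` (`flow`): so its
level curve `f = t` is, near `γ`, the curve `exp(tM) γ`, and the curves `exp(tM) γ` are the
leaves of a foliation.  By convexity the tangent lines of `γ` stay in the exterior of `γ`.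
`proj` says that for every point of `γ` the involution of the tangent line which exchanges the
two points of each leaf is projective: a projective involution of the line (coordinate `s`)
which fixes `s = 0` and exchanges the two sides is `s ↦ -s / (1 + c s)`.

Conclusion: with the positive definite form `Q(y) = a y₁² + 2 b y₁ y₂ + c y₂²`, the curve `γ` is
the ellipse `Q = 1`, the trace of `M` is not zero, the leaf `exp(tM) γ` is the ellipse
`Q = exp(tr(M) t)` for every `t`, and `Q = exp(tr(M) f)` near every point of `γ`.  So all leaves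
are ellipses of the pencil spanned by `Q` and the double line at infinity.

Idea of the proof.  Take a frame `(e, Mp)` along `γ` and write `g(x, s) = f(p + s e)`.  The
equation `df(My) = 1` becomes a transport equation for `g`.  The odd Taylor coefficients of `g`
in `s` of orders 3, 5, 7 give a closed system of differential equations along `γ` and a quartic
polynomial on every tangent line which is a relative invariant of a vector field that moves the
points of the tangent lines along the flow of `M`.  A Lyapunov form shows that the quartic has no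
real zero; the maximum principle on the closed curve then makes all invariants constant.
-/

open Filter Topology

namespace Pool.Agent.V5helper96.Variants.LinearFlowLeaves

/-- determinant of two vectors of the plane -/
def det (u w : ℝ × ℝ) : ℝ := u.1 * w.2 - u.2 * w.1

/-- trace of a linear map of the plane -/
noncomputable def trace (M : ℝ × ℝ →L[ℝ] ℝ × ℝ) : ℝ := (M (1, 0)).1 + (M (0, 1)).2

theorem result (M : ℝ × ℝ →L[ℝ] ℝ × ℝ) (p : ℝ → ℝ × ℝ) (L : ℝ) (f : ℝ × ℝ → ℝ)
    (U : Set (ℝ × ℝ))
    (hL : 0 < L) (periodic : ∀ x, p (x + L) = p x)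
    (smooth_p : ContDiff ℝ (⊤ : ℕ∞) p)
    (curved : ∀ x, 0 < det (deriv p x) (deriv (deriv p) x))
    (inside : ∀ x, 0 < det (p x) (deriv p x))
    (hU : IsOpen U) (hpU : ∀ x, p x ∈ U) (smooth_f : ContDiffOn ℝ (⊤ : ℕ∞) f U)
    (leaf : ∀ x, f (p x) = 0) (flow : ∀ y ∈ U, fderiv ℝ f y (M y) = 1)
    (proj : ∀ x, ∃ c : ℝ, ∀ᶠ s in 𝓝 (0 : ℝ),
      f (p x + s • deriv p x) = f (p x - (s / (1 + c * s)) • deriv p x)) :
    trace M ≠ 0 ∧ ∃ a b c : ℝ, 0 < a ∧ b ^ 2 < a * c ∧
      (∀ y : ℝ × ℝ, a * y.1 ^ 2 + 2 * b * y.1 * y.2 + c * y.2 ^ 2 = 1 ↔ ∃ x, p x = y) ∧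
      (∀ t : ℝ, (fun y => NormedSpace.exp (t • M) y) '' Set.range p
        = {y | a * y.1 ^ 2 + 2 * b * y.1 * y.2 + c * y.2 ^ 2 = Real.exp (trace M * t)}) ∧
      (∀ x, ∀ᶠ y in 𝓝 (p x),
        a * y.1 ^ 2 + 2 * b * y.1 * y.2 + c * y.2 ^ 2 = Real.exp (trace M * f y)) :=
  Pool.Agent.V5helper96.PJ.main M p L f U hL periodic smooth_p curved inside hU hpU smooth_f
    leaf flow proj

end Pool.Agent.V5helper96.Variants.LinearFlowLeaves
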